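import Pool.Agent.R450.Cia.A
import Pool.Agent.R450.Cia.B
import Pool.Agent.R450.Cia.C4

/-!
# MP_521103_al, Q1: the answer is YES

Let `A` be a non-unital involutive commutative continuous inverse algebra and `π` a bounded unitary
representation of `𝔨_A = 𝔰𝔲₂ ⊗ A_ℝ` on a Hilbert space, extended complex linearly to `𝔰𝔩₂(A)`.
If `v ≠ 0` is killed by all `π(ae)` and `π(ah)v = λ(a)v`, then `F(e^a) = e^{λ(a)}` extends to a
multiplicative holomorphic map on `1 + A`.  (Irreducibility and completeness are not needed.)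

Formula: `F(1+y) = e^{λ(y)} ⟨v, exp(π(y e)) exp(π(c(y) f)) v⟩` with `c(z) = ((1+z)e^{-z} - 1)/z`.
-/

namespace Pool.Agent.Results.MP_521103_al.HolomorphicExtension

set_option linter.unusedSectionVars false

open Topology Filter
open scoped InnerProductSpace Nat

/-! ### Definitions -/

/-- The unitization `A₊ = ℂ ⊕ A`. -/
def Plus (A : Type*) := Unitization ℂ A

section defs

variable (A : Type*) [NonUnitalCommRing A] [Module ℂ A] [IsScalarTower ℂ A A] [SMulCommClass ℂ A A]

noncomputable instance : CommRing (Plus A) := inferInstanceAs (CommRing (Unitization ℂ A))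

noncomputable instance : Algebra ℂ (Plus A) := inferInstanceAs (Algebra ℂ (Unitization ℂ A))

/-- the product topology on `A₊ = ℂ ⊕ A` -/
noncomputable instance [TopologicalSpace A] : TopologicalSpace (Plus A) :=
  TopologicalSpace.induced (Unitization.toProd : Unitization ℂ A → ℂ × A) inferInstance

variable {A}

/-- the inclusion `A → A₊` -/
noncomputable def Plus.inr (a : A) : Plus A := (Unitization.inr a : Unitization ℂ A)

/-- the scalar part of an element of `A₊`; the set `1 + A` is `{u | u.sc = 1}` -/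
def Plus.sc (u : Plus A) : ℂ := (Unitization.toProd u).1

/-- the `A`-part of an element of `A₊` -/
def Plus.vec (u : Plus A) : A := (Unitization.toProd u).2

variable (A)

/-- `A` is a non-unital continuous inverse algebra: the unit group of `A₊` is open and the
inversion of `A₊` is continuous. -/
structure IsNonUnitalCia [TopologicalSpace A] : Prop where
  isOpen_units : IsOpen {u : Plus A | IsUnit u}
  continuousOn_inverse : ContinuousOn (Ring.inverse : Plus A → Plus A) {u : Plus A | IsUnit u}

/-- `𝔤(A) = 𝔰𝔩₂(ℂ) ⊗ A`, realised as the trace zero `2 × 2` matrices over `A`. -/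
def sl2 : Submodule ℂ (Matrix (Fin 2) (Fin 2) A) where
  carrier := {X | X 0 0 + X 1 1 = 0}
  add_mem' := by
    intro X Y hX hY
    simp only [Set.mem_ofPred_eq, Matrix.add_apply] at *
    rw [add_add_add_comm, hX, hY, add_zero]
  zero_mem' := by simp
  smul_mem' := by
    intro c X hX
    simp only [Set.mem_ofPred_eq, Matrix.smul_apply] at *
    rw [← smul_add, hX, smul_zero]

variable {A}

/-- The Lie bracket `[X, Y] = XY - YX` of `𝔰𝔩₂(A)`; `[x ⊗ a, y ⊗ b] = [x, y] ⊗ ab`. -/
def bracket (X Y : sl2 A) : sl2 A := ⟨X.1 * Y.1 - Y.1 * X.1, by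
  change (X.1 * Y.1 - Y.1 * X.1) 0 0 + (X.1 * Y.1 - Y.1 * X.1) 1 1 = 0
  simp only [Matrix.sub_apply, Matrix.mul_apply, Fin.sum_univ_two]
  rw [mul_comm (Y.1 0 0), mul_comm (Y.1 0 1), mul_comm (Y.1 1 0), mul_comm (Y.1 1 1)]
  abel⟩

/-- `e ⊗ a` -/
def mE (a : A) : sl2 A := ⟨!![0, a; 0, 0], by change (0 : A) + 0 = 0; simp⟩

/-- `f ⊗ a` -/
def mF (a : A) : sl2 A := ⟨!![0, 0; a, 0], by change (0 : A) + 0 = 0; simp⟩

/-- `h ⊗ a` -/
def mH (a : A) : sl2 A := ⟨!![a, 0; 0, -a], by change a + -a = 0; simp⟩

variable (A) [StarRing A] [StarModule ℂ A] [TopologicalSpace A]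
  (H : Type*) [NormedAddCommGroup H] [InnerProductSpace ℂ H] [CompleteSpace H]

/-- A bounded unitary representation of the real form `𝔨_A = {X ∈ 𝔰𝔩₂(A) : X^* = -X}`
(`= 𝔰𝔲₂ ⊗ A_ℝ`), given by its complex linear extension to `𝔰𝔩₂(A)`: a continuous linear map to the
bounded operators on the Hilbert space `H` (norm topology) respecting brackets, with skew-adjoint
values on `𝔨_A`. -/
structure BoundedUnitaryRep where
  /-- the representation -/
  π : sl2 A →ₗ[ℂ] (H →L[ℂ] H)
  continuous_π : Continuous π
  map_bracket : ∀ X Y : sl2 A, π (bracket X Y) = π X * π Y - π Y * π X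
  skew : ∀ X : sl2 A, star X.1 = -X.1 → ContinuousLinearMap.adjoint (π X) = -π X

end defs

/-! ### The topological algebra `A₊` -/

section topo

variable {A : Type*} [NonUnitalCommRing A] [Module ℂ A] [IsScalarTower ℂ A A] [SMulCommClass ℂ A A]

lemma sc_add (u w : Plus A) : (u + w).sc = u.sc + w.sc := rfl
lemma vec_add (u w : Plus A) : (u + w).vec = u.vec + w.vec := rfl
lemma sc_mul (u w : Plus A) : (u * w).sc = u.sc * w.sc := rfl
lemma vec_mul (u w : Plus A) : (u * w).vec = u.sc • w.vec + w.sc • u.vec + u.vec * w.vec := rfl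
lemma sc_neg (u : Plus A) : (-u).sc = -u.sc := rfl
lemma vec_neg (u : Plus A) : (-u).vec = -u.vec := rfl
lemma sc_smul (c : ℂ) (u : Plus A) : (c • u).sc = c * u.sc := rfl
lemma vec_smul (c : ℂ) (u : Plus A) : (c • u).vec = c • u.vec := rfl
lemma sc_one : (1 : Plus A).sc = 1 := rfl
lemma vec_one : (1 : Plus A).vec = 0 := rfl
lemma sc_zero : (0 : Plus A).sc = 0 := rfl
lemma vec_zero : (0 : Plus A).vec = 0 := rfl
lemma sc_inr (a : A) : (Plus.inr a).sc = 0 := rfl
lemma vec_inr (a : A) : (Plus.inr a).vec = a := rfl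

lemma plus_ext {u w : Plus A} (h1 : u.sc = w.sc) (h2 : u.vec = w.vec) : u = w :=
  Unitization.ext h1 h2

variable [TopologicalSpace A]

lemma continuous_sc : Continuous (Plus.sc : Plus A → ℂ) :=
  continuous_fst.comp continuous_induced_dom

lemma continuous_vec : Continuous (Plus.vec : Plus A → A) :=
  continuous_snd.comp continuous_induced_dom

lemma continuous_plus {X : Type*} [TopologicalSpace X] {g : X → Plus A}
    (h1 : Continuous fun x => (g x).sc) (h2 : Continuous fun x => (g x).vec) :
    Continuous g :=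
  continuous_induced_rng.2 (h1.prodMk h2)

lemma continuous_inr : Continuous (Plus.inr : A → Plus A) :=
  continuous_plus (by simp only [sc_inr]; exact continuous_const)
    (by simp only [vec_inr]; exact continuous_id)

instance [IsTopologicalRing A] [ContinuousSMul ℂ A] : IsTopologicalRing (Plus A) where
  continuous_add := by
    refine continuous_plus ?_ ?_
    · exact (continuous_sc.comp continuous_fst).add (continuous_sc.comp continuous_snd)
    · exact (continuous_vec.comp continuous_fst).add (continuous_vec.comp continuous_snd)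
  continuous_mul := by
    refine continuous_plus ?_ ?_
    · exact (continuous_sc.comp continuous_fst).mul (continuous_sc.comp continuous_snd)
    · exact (((continuous_sc.comp continuous_fst).smul (continuous_vec.comp continuous_snd)).add
        ((continuous_sc.comp continuous_snd).smul (continuous_vec.comp continuous_fst))).add
        ((continuous_vec.comp continuous_fst).mul (continuous_vec.comp continuous_snd))
  continuous_neg := by
    refine continuous_plus ?_ ?_
    · exact continuous_sc.neg
    · exact continuous_vec.neg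

instance [ContinuousSMul ℂ A] : ContinuousSMul ℂ (Plus A) where
  continuous_smul := by
    refine continuous_plus ?_ ?_
    · exact continuous_fst.mul (continuous_sc.comp continuous_snd)
    · exact continuous_fst.smul (continuous_vec.comp continuous_snd)

/-- the real linear map `A₊ → ℂ × A` -/
def toProdL : Plus A →ₗ[ℝ] (ℂ × A) where
  toFun u := (Plus.sc u, Plus.vec u)
  map_add' _ _ := rfl
  map_smul' r u := by
    refine Prod.ext ?_ rfl
    change ((r : ℂ) * Plus.sc u) = r • Plus.sc u
    rw [Complex.real_smul]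

instance [IsTopologicalRing A] [ContinuousSMul ℂ A] [LocallyConvexSpace ℝ A] :
    LocallyConvexSpace ℝ (Plus A) :=
  LocallyConvexSpace.induced (toProdL (A := A))

end topo


/-! ### From a representation to the operator data -/

section data

variable {A : Type*} [NonUnitalCommRing A] [Module ℂ A] [IsScalarTower ℂ A A] [SMulCommClass ℂ A A]
  [StarRing A] [StarModule ℂ A] [TopologicalSpace A] [IsTopologicalRing A] [ContinuousSMul ℂ A]
  {H : Type*} [NormedAddCommGroup H] [InnerProductSpace ℂ H] [CompleteSpace H]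

lemma bracket_EF (a b : A) : bracket (mE a) (mF b) = mH (a * b) := by
  apply Subtype.ext
  ext i j
  fin_cases i <;> fin_cases j <;>
    simp [bracket, mE, mF, mH, mul_comm b a]

lemma bracket_HE (a b : A) : bracket (mH a) (mE b) = (2 : ℂ) • mE (a * b) := by
  apply Subtype.ext
  ext i j
  fin_cases i <;> fin_cases j <;>
    simp [bracket, mE, mH, mul_comm b a, two_smul]

lemma bracket_HF (a b : A) : bracket (mH a) (mF b) = -((2 : ℂ) • mF (a * b)) := by
  apply Subtype.ext
  ext i j
  fin_cases i <;> fin_cases j <;>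
    simp [bracket, mF, mH, mul_comm b a, two_smul]
  abel

lemma bracket_EE (a b : A) : bracket (mE a) (mE b) = 0 := by
  apply Subtype.ext
  ext i j
  fin_cases i <;> fin_cases j <;>
    simp [bracket, mE]

lemma bracket_FF (a b : A) : bracket (mF a) (mF b) = 0 := by
  apply Subtype.ext
  ext i j
  fin_cases i <;> fin_cases j <;>
    simp [bracket, mF]

/-- linear version of `mE` on `A₊` -/
def lE : Plus A →ₗ[ℂ] sl2 A where
  toFun u := mE u.vec
  map_add' u w := by
    apply Subtype.ext
    ext i j
    fin_cases i <;> fin_cases j <;> simp [mE, vec_add]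
  map_smul' c u := by
    apply Subtype.ext
    ext i j
    fin_cases i <;> fin_cases j <;> simp [mE, vec_smul]

/-- linear version of `mF` on `A₊` -/
def lF : Plus A →ₗ[ℂ] sl2 A where
  toFun u := mF u.vec
  map_add' u w := by
    apply Subtype.ext
    ext i j
    fin_cases i <;> fin_cases j <;> simp [mF, vec_add]
  map_smul' c u := by
    apply Subtype.ext
    ext i j
    fin_cases i <;> fin_cases j <;> simp [mF, vec_smul]

/-- linear version of `mH` on `A₊` -/
def lH : Plus A →ₗ[ℂ] sl2 A where
  toFun u := mH u.vec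
  map_add' u w := by
    apply Subtype.ext
    ext i j
    fin_cases i <;> fin_cases j <;> simp [mH, vec_add, add_comm]
  map_smul' c u := by
    apply Subtype.ext
    ext i j
    fin_cases i <;> fin_cases j <;> simp [mH, vec_smul]

lemma cont_lE : Continuous (lE : Plus A →ₗ[ℂ] sl2 A) := by
  refine Continuous.subtype_mk (continuous_matrix fun i j => ?_) _
  fin_cases i <;> fin_cases j
  · exact continuous_const
  · exact continuous_vec
  · exact continuous_const
  · exact continuous_const

lemma cont_lF : Continuous (lF : Plus A →ₗ[ℂ] sl2 A) := by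
  refine Continuous.subtype_mk (continuous_matrix fun i j => ?_) _
  fin_cases i <;> fin_cases j
  · exact continuous_const
  · exact continuous_const
  · exact continuous_vec
  · exact continuous_const

lemma cont_lH : Continuous (lH : Plus A →ₗ[ℂ] sl2 A) := by
  refine Continuous.subtype_mk (continuous_matrix fun i j => ?_) _
  fin_cases i <;> fin_cases j
  · exact continuous_vec
  · exact continuous_const
  · exact continuous_const
  · exact continuous_vec.neg

/-- `X ↦ X^*` on `𝔰𝔩₂(A)` -/
def sstar (X : sl2 A) : sl2 A := ⟨star X.1, by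
  change star (X.1 0 0) + star (X.1 1 1) = 0
  rw [← star_add, show X.1 0 0 + X.1 1 1 = 0 from X.2, star_zero]⟩

lemma adj (ρ : BoundedUnitaryRep A H) (X : sl2 A) :
    ContinuousLinearMap.adjoint (ρ.π X) = ρ.π (sstar X) := by
  set Pp : sl2 A := (1 / 2 : ℂ) • (X - sstar X) with hP
  set Qs : sl2 A := (1 / 2 : ℂ) • (X + sstar X) with hQ
  have hX : X = Pp + Qs := by
    rw [hP, hQ]
    module
  have hX' : sstar X = -Pp + Qs := by
    rw [hP, hQ]
    module
  have hss : star (sstar X).1 = X.1 := star_star X.1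
  have hPs : star Pp.1 = -Pp.1 := by
    have h1 : Pp.1 = (1 / 2 : ℂ) • (X.1 - (sstar X).1) := rfl
    have h2 : (sstar X).1 = star X.1 := rfl
    rw [h1, star_smul, star_sub, hss, ← h2, ← smul_neg, neg_sub]
    congr 1
    simp
  have hQs : star ((Complex.I • Qs : sl2 A)).1 = -((Complex.I • Qs : sl2 A)).1 := by
    have h1 : ((Complex.I • Qs : sl2 A)).1 = (Complex.I * (1 / 2 : ℂ)) • (X.1 + (sstar X).1) := by
      rw [mul_smul]; rfl
    have h2 : (sstar X).1 = star X.1 := rfl
    rw [h1, star_smul, star_add, hss, ← h2, add_comm (sstar X).1, ← neg_smul]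
    congr 1
    simp
  have h1 := ρ.skew Pp hPs
  have h2 := ρ.skew (Complex.I • Qs) hQs
  rw [map_smul, map_smulₛₗ, Complex.conj_I, neg_smul, neg_inj] at h2
  have h3 : ContinuousLinearMap.adjoint (ρ.π Qs) = ρ.π Qs := by
    have := congrArg (fun T => (-Complex.I) • T) h2
    simpa [smul_smul] using this
  rw [hX', map_add, map_neg]
  conv_lhs => rw [hX]
  rw [map_add, map_add, h1, h3]

variable (A) in
/-- the scalar part as a ring homomorphism; its kernel is `A` -/
def scHom : Plus A →+* ℂ where
  toFun := Plus.sc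
  map_one' := sc_one
  map_mul' := sc_mul
  map_zero' := sc_zero
  map_add' := sc_add

/-- the operator data of a representation with a unit vector killed by all `π(ae)` -/
noncomputable def toData (ρ : BoundedUnitaryRep A H) (v : H) (hv : ‖v‖ = 1) (lam : A → ℂ)
    (hE : ∀ a, ρ.π (mE a) v = 0) (hH : ∀ a, ρ.π (mH a) v = lam a • v) :
    Pool.Agent.R450.Cia.Data (Plus A) (RingHom.ker (scHom A)) H := by
  have hstarE : ∀ a : A, sstar (mF a) = mE (star a) := by
    intro a
    apply Subtype.ext
    ext i j
    fin_cases i <;> fin_cases j <;> simp [sstar, mE, mF, Matrix.star_apply]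
  have hstarH : ∀ a : A, sstar (mH a) = mH (star a) := by
    intro a
    apply Subtype.ext
    ext i j
    fin_cases i <;> fin_cases j <;> simp [sstar, mH, Matrix.star_apply]
  have hvv : ⟪v, v⟫_ℂ = 1 := by
    rw [inner_self_eq_norm_sq_to_K, hv]; norm_num
  have hlam : ∀ a, ⟪v, ρ.π (mH a) v⟫_ℂ = lam a := by
    intro a
    rw [hH, inner_smul_right, hvv, mul_one]
  have hlamstar : ∀ a, (starRingEnd ℂ) (lam (star a)) = lam a := by
    intro a
    have h1 : ⟪v, ρ.π (mH a) v⟫_ℂ = ⟪ρ.π (mH (star a)) v, v⟫_ℂ := by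
      rw [← ContinuousLinearMap.adjoint_inner_left, adj, hstarH]
    rw [hlam, hH, inner_smul_left, hvv, mul_one] at h1
    exact h1.symm
  have hv1 : ∀ u w : Plus A, u.sc = 0 → w.sc = 0 → (u * w).vec = u.vec * w.vec := by
    intro u w hu hw
    rw [vec_mul, hu, hw, zero_smul, zero_smul, add_zero, zero_add]
  exact
  { E := ρ.π ∘ₗ lE
    F := ρ.π ∘ₗ lF
    K := ρ.π ∘ₗ lH
    contE := ρ.continuous_π.comp cont_lE
    contF := ρ.continuous_π.comp cont_lF
    contK := ρ.continuous_π.comp cont_lH
    EF := by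
      intro a ha b hb
      change ρ.π (mE a.vec) * ρ.π (mF b.vec) - ρ.π (mF b.vec) * ρ.π (mE a.vec) =
        ρ.π (mH (a * b).vec)
      rw [← ρ.map_bracket, bracket_EF, hv1 a b ha hb]
    KE := by
      intro a ha b hb
      change ρ.π (mH a.vec) * ρ.π (mE b.vec) - ρ.π (mE b.vec) * ρ.π (mH a.vec) =
        (2 : ℂ) • ρ.π (mE (a * b).vec)
      rw [← ρ.map_bracket, bracket_HE, hv1 a b ha hb, map_smul]
    KF := by
      intro a ha b hb
      change ρ.π (mH a.vec) * ρ.π (mF b.vec) - ρ.π (mF b.vec) * ρ.π (mH a.vec) =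
        -((2 : ℂ) • ρ.π (mF (a * b).vec))
      rw [← ρ.map_bracket, bracket_HF, hv1 a b ha hb, map_neg, map_smul]
    EE := by
      intro a ha b hb
      change ρ.π (mE a.vec) * ρ.π (mE b.vec) = ρ.π (mE b.vec) * ρ.π (mE a.vec)
      rw [← sub_eq_zero, ← ρ.map_bracket, bracket_EE, map_zero]
    FF := by
      intro a ha b hb
      change ρ.π (mF a.vec) * ρ.π (mF b.vec) = ρ.π (mF b.vec) * ρ.π (mF a.vec)
      rw [← sub_eq_zero, ← ρ.map_bracket, bracket_FF, map_zero]
    v := v
    norm_v := hv
    lam := (innerSL ℂ v : H →ₗ[ℂ] ℂ) ∘ₗ ((ContinuousLinearMap.apply ℂ H v : (H →L[ℂ] H) →ₗ[ℂ] H) ∘ₗ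
      (ρ.π ∘ₗ lH))
    contlam := (innerSL ℂ v).continuous.comp ((ContinuousLinearMap.apply ℂ H v).continuous.comp
      (ρ.continuous_π.comp cont_lH))
    Ev := fun a _ => hE a.vec
    Kv := by
      intro a ha
      change ρ.π (mH a.vec) v = ⟪v, ρ.π (mH a.vec) v⟫_ℂ • v
      rw [hlam, hH]
    vF := by
      intro a ha w
      change ⟪v, ρ.π (mF a.vec) w⟫_ℂ = 0
      rw [← ContinuousLinearMap.adjoint_inner_left, adj, hstarE, hE, inner_zero_left]
    vK := by
      intro a ha w
      change ⟪v, ρ.π (mH a.vec) w⟫_ℂ = ⟪v, ρ.π (mH a.vec) v⟫_ℂ * ⟪v, w⟫_ℂ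
      rw [hlam, ← ContinuousLinearMap.adjoint_inner_left, adj, hstarH, hH, inner_smul_left,
        hlamstar] }

end data

/-! ### The theorem -/

/-- **Q1 of MP_521103_al, answered affirmatively.**

`A` is a (possibly non-unital) commutative involutive locally convex algebra whose unitization
`A₊ = Plus A` is a continuous inverse algebra, `ρ` a bounded unitary representation of `𝔨_A` on `H`,
`v ≠ 0` a vector killed by all `π(ae)`, with `π(ah) v = λ(a) v`.  Then there is a map `F` on `1 + A`
(extended arbitrarily to `A₊`) that is multiplicative, holomorphic (continuous and complex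
differentiable along every complex line) and satisfies `F(e^a) = e^{λ(a)}` whenever the exponential
series of `a` converges, in particular for all `a` if `A` is (Mackey) complete. -/
theorem result (A : Type*) [NonUnitalCommRing A] [Module ℂ A] [IsScalarTower ℂ A A]
    [SMulCommClass ℂ A A] [StarRing A] [StarModule ℂ A] [TopologicalSpace A] [IsTopologicalRing A]
    [ContinuousSMul ℂ A] [LocallyConvexSpace ℝ A] (hA : IsNonUnitalCia A)
    (H : Type*) [NormedAddCommGroup H] [InnerProductSpace ℂ H] [CompleteSpace H]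
    (ρ : BoundedUnitaryRep A H) (v : H) (hv : v ≠ 0) (hE : ∀ a : A, ρ.π (mE a) v = 0)
    (lam : A → ℂ) (hH : ∀ a : A, ρ.π (mH a) v = lam a • v) :
    ∃ F : Plus A → ℂ,
      (∀ x y : Plus A, x.sc = 1 → y.sc = 1 → F (x * y) = F x * F y) ∧
      Continuous (fun a : A => F (1 + Plus.inr a)) ∧
      (∀ a w : A, Differentiable ℂ (fun t : ℂ => F (1 + Plus.inr (a + t • w)))) ∧
      (∀ (a : A) (u : Plus A),
        Tendsto (fun N : ℕ => ∑ n ∈ Finset.range N, ((n ! : ℂ))⁻¹ • (Plus.inr a) ^ n) atTop (𝓝 u) →
        F u = Complex.exp (lam a)) := by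
  set v' : H := ((‖v‖ : ℂ)⁻¹) • v with hv'
  have hn : (‖v‖ : ℂ) ≠ 0 := by exact_mod_cast norm_ne_zero_iff.2 hv
  have hv1 : ‖v'‖ = 1 := by
    rw [hv', norm_smul, norm_inv, Complex.norm_real, norm_norm]
    exact inv_mul_cancel₀ (norm_ne_zero_iff.2 hv)
  have hE' : ∀ a : A, ρ.π (mE a) v' = 0 := fun a => by rw [hv', map_smul, hE, smul_zero]
  have hH' : ∀ a : A, ρ.π (mH a) v' = lam a • v' := fun a => by
    rw [hv', map_smul, hH, smul_comm]
  set D := toData ρ v' hv1 lam hE' hH' with hD
  have hlam : ∀ a : A, D.lam (Plus.inr a) = lam a := by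
    intro a
    change ⟪v', ρ.π (mH a) v'⟫_ℂ = lam a
    rw [hH', inner_smul_right, inner_self_eq_norm_sq_to_K, hv1]
    norm_num
  obtain ⟨Φ, h1, h2, h3, h4⟩ := Pool.Agent.R450.Cia.core hA.isOpen_units hA.continuousOn_inverse
    (Pool.Agent.R450.Cia.A1 hA.isOpen_units hA.continuousOn_inverse)
    (Pool.Agent.R450.Cia.A2 hA.isOpen_units hA.continuousOn_inverse) D
    (Pool.Agent.R450.Cia.B D)
  refine ⟨Φ, fun x y hx hy => ?_, ?_, fun a w => ?_, fun a u hu => ?_⟩
  · have hx' : x - 1 ∈ RingHom.ker (scHom A) := by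
      rw [RingHom.mem_ker, map_sub, map_one]
      exact sub_eq_zero.2 hx
    have hy' : y - 1 ∈ RingHom.ker (scHom A) := by
      rw [RingHom.mem_ker, map_sub, map_one]
      exact sub_eq_zero.2 hy
    have := h1 _ hx' _ hy'
    simpa using this
  · exact h2.comp (continuous_const.add continuous_inr)
  · have := h3 (Plus.inr a) (Plus.inr w)
    have heq : (fun t : ℂ => Φ (1 + Plus.inr (a + t • w))) =
        fun t : ℂ => Φ (1 + (Plus.inr a + t • Plus.inr w)) := by
      funext t
      congr 2
      apply plus_ext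
      · rw [sc_add, sc_smul, sc_inr, sc_inr, sc_inr, mul_zero, add_zero]
      · rfl
    rw [heq]
    exact this
  · rw [h4 (Plus.inr a) rfl u hu, hlam]

end Pool.Agent.Results.MP_521103_al.HolomorphicExtension
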